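import Pool.Agent.MP_5168f5_an.H41.Main

/-! The maximal inequality on the affine charts `c ⬝ u = 1` of the space of directions. -/

namespace Pool.Agent.MP_5168f5_an.H41

open Finset

variable {R : Type} [CommRing R] [Fintype R] [DecidableEq R] {n : ℕ}

omit [DecidableEq R] in
theorem stable {a b x : R} (h : a * x + b = 1) : ∃ y, IsUnit (a + y * b) := by
  obtain ⟨m, y, hy⟩ := IsArtinian.exists_pow_succ_smul_dvd a (1 : R)
  refine ⟨1 - a * y, by_contra fun hn => ?_⟩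
  obtain ⟨M, hM, hx⟩ := exists_max_ideal_of_mem_nonunits hn
  have h0 : a ^ m * (1 - a * y) ∈ M := by
    simp only [smul_eq_mul, Nat.succ_eq_add_one, pow_succ, mul_one] at hy
    rw [show a ^ m * (1 - a * y) = 0 by linear_combination -hy]
    exact M.zero_mem
  have ha : a ∈ M := by
    rcases hM.isPrime.mem_or_mem h0 with h1 | h1
    · exact hM.isPrime.mem_of_pow_mem _ h1
    · simpa using M.sub_mem hx (M.mul_mem_right b h1)
  refine hM.ne_top ((Ideal.eq_top_iff_one M).2 ?_)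
  have h2 := M.add_mem hx (M.mul_mem_right (x + y * b - 1) ha)
  rwa [show a + (1 - a * y) * b + a * (x + y * b - 1) = 1 by linear_combination h] at h2

omit [DecidableEq R] in
theorem exists_chart {c u : Fin (n + 1) → R} (h : c ⬝ᵥ u = 1) :
    ∃ Φ : (R × (Fin n → R)) ≃ₗ[R] (Fin (n + 1) → R), ∀ x, c ⬝ᵥ Φ x = x.1 := by
  classical
  rw [dotProduct, Fin.sum_univ_succ] at h
  obtain ⟨y, w, hw⟩ := stable h
  let e : Fin (n + 1) → R := (w⁻¹ : Rˣ).1 • Fin.cons 1 fun j => y * u j.succ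
  have he : c ⬝ᵥ e = 1 := by
    rw [dotProduct_smul, dotProduct, Fin.sum_univ_succ, smul_eq_mul]
    refine Eq.trans ?_ w.inv_mul
    rw [hw, Finset.mul_sum]
    simp only [Fin.cons_zero, Fin.cons_succ, mul_one, mul_left_comm y]
  have hc : ∀ z : Fin n → R, c ⬝ᵥ Fin.cons 0 z = ∑ j, c j.succ * z j := fun z => by
    simp [dotProduct, Fin.sum_univ_succ]
  let Ψ : (R × (Fin n → R)) →ₗ[R] (Fin (n + 1) → R) :=
    { toFun := fun x => Fin.cons 0 x.2 + (x.1 - ∑ j, c j.succ * x.2 j) • e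
      map_add' := fun x x' => by
        funext j
        refine Fin.cases ?_ (fun j => ?_) j <;>
          simp only [Pi.add_apply, Pi.smul_apply, Fin.cons_zero, Fin.cons_succ, Prod.fst_add,
            Prod.snd_add, mul_add, Finset.sum_add_distrib, smul_eq_mul] <;> ring
      map_smul' := fun r x => by
        funext j
        refine Fin.cases ?_ (fun j => ?_) j <;>
          simp only [Pi.add_apply, Pi.smul_apply, Fin.cons_zero, Fin.cons_succ, Prod.smul_fst,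
            Prod.smul_snd, smul_eq_mul, RingHom.id_apply, mul_left_comm _ r, ← Finset.mul_sum] <;>
          ring }
  have hΨ : ∀ x, c ⬝ᵥ Ψ x = x.1 := fun x => by
    show c ⬝ᵥ (Fin.cons 0 x.2 + (x.1 - ∑ j, c j.succ * x.2 j) • e) = _
    rw [dotProduct_add, dotProduct_smul, he, hc, smul_eq_mul]
    ring
  have hinj : Function.Injective Ψ := by
    refine (injective_iff_map_eq_zero Ψ).2 fun x hx => ?_
    have h1 := hΨ x
    rw [hx, dotProduct_zero] at h1
    have h2 : (x.1 - ∑ j, c j.succ * x.2 j) * (w⁻¹ : Rˣ).1 = 0 := by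
      simpa [Ψ, e] using congrFun hx 0
    rw [Units.mul_left_eq_zero] at h2
    refine Prod.ext h1.symm (funext fun j => ?_)
    simpa [Ψ, h2] using congrFun hx j.succ
  refine ⟨LinearEquiv.ofBijective Ψ ((Fintype.bijective_iff_injective_and_card _).2 ⟨hinj, ?_⟩), hΨ⟩
  simp [pow_succ']

theorem sum_chart {c : Fin (n + 1) → R} (Φ : (R × (Fin n → R)) ≃ₗ[R] (Fin (n + 1) → R))
    (hΦ : ∀ x, c ⬝ᵥ Φ x = x.1) (g : (Fin (n + 1) → R) → ℝ) :
    ∑ u ∈ univ.filter fun u => c ⬝ᵥ u = 1, g u = ∑ d, g (Φ (1, d)) := by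
  refine (Finset.sum_bij (fun d _ => Φ (1, d)) (fun d _ => mem_filter.2 ⟨mem_univ _, hΦ _⟩)
    (fun d _ d' _ h => congrArg Prod.snd (Φ.injective h)) (fun u hu => ?_) fun _ _ => rfl).symm
  obtain ⟨⟨s, d⟩, rfl⟩ := Φ.surjective u
  obtain rfl : s = 1 := (hΦ _).symm.trans (mem_filter.1 hu).2
  exact ⟨d, mem_univ _, rfl⟩

/-- The maximal inequality on the chart `c ⬝ u = 1`. -/
def Ch (c : Fin (n + 1) → R) (B : ℝ) : Prop :=
  ∀ (f : (Fin (n + 1) → R) → ℝ) (a : (Fin (n + 1) → R) → Fin (n + 1) → R), (∀ z, 0 ≤ f z) →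
    ∑ u ∈ univ.filter fun u => c ⬝ᵥ u = 1, (∑ t : R, f (a u + t • u)) ^ (n + 1) ≤
      B * ∑ z, f z ^ (n + 1)

theorem Mx.ch {B : ℝ} (h : Mx R n B) (hB : 0 ≤ B) (c : Fin (n + 1) → R) : Ch c B := by
  intro f a hf
  rcases (univ.filter fun u => c ⬝ᵥ u = 1).eq_empty_or_nonempty with h0 | ⟨u, hu⟩
  · rw [h0, sum_empty]
    exact mul_nonneg hB (Finset.sum_nonneg fun z _ => pow_nonneg (hf z) _)
  obtain ⟨Φ, hΦ⟩ := exists_chart (mem_filter.1 hu).2
  have h1 := h (fun x => f (Φ x))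
    (fun d => (Φ.symm (a (Φ (1, d)))).2 - (Φ.symm (a (Φ (1, d)))).1 • d) fun _ => hf _
  rw [sum_chart Φ hΦ, ← Equiv.sum_comp Φ.toEquiv]
  refine le_trans (le_of_eq (Finset.sum_congr rfl fun d _ => ?_)) h1
  obtain ⟨⟨s, z⟩, hx⟩ := Φ.surjective (a (Φ (1, d)))
  rw [← hx, Φ.symm_apply_apply, ← Equiv.sum_comp (Equiv.addLeft s)
    fun t => f (Φ (t, z - s • d + t • d))]
  congr 1
  refine Finset.sum_congr rfl fun t _ => ?_
  rw [← map_smul, ← map_add]
  congr 2
  refine Prod.ext (by simp) ?_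
  simp only [Prod.snd_add, Prod.smul_snd, Equiv.coe_addLeft, add_smul]
  abel

theorem Ch.mx {B : ℝ} (h : Ch (Pi.single 0 1 : Fin (n + 1) → R) B) : Mx R n B := by
  intro f a hf
  obtain ⟨Φ, hΦ⟩ := exists_chart (c := (Pi.single 0 1 : Fin (n + 1) → R)) (u := Pi.single 0 1)
    (by simp)
  have h1 := h (fun u => f (Φ.symm u)) (fun u => Φ (0, a (Φ.symm u).2)) fun _ => hf _
  have e : ∑ z, f (Φ.symm z) ^ (n + 1) = ∑ x, f x ^ (n + 1) :=
    Equiv.sum_comp Φ.symm.toEquiv fun x => f x ^ (n + 1)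
  rw [sum_chart Φ hΦ, e] at h1
  refine le_trans (le_of_eq (Finset.sum_congr rfl fun d _ => ?_)) h1
  congr 1
  refine Finset.sum_congr rfl fun t _ => ?_
  rw [← map_smul, ← map_add, Φ.symm_apply_apply, Φ.symm_apply_apply]
  simp

end Pool.Agent.MP_5168f5_an.H41
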