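import Mathlib

/-! A valuation ring of `ℂ` above `p`, and vanishing to high order. -/

namespace Pool.Agent.MP_5168f5_an.H41

open Finset Polynomial

theorem exists_val {p : ℕ} (hp : p.Prime) : ∃ V : ValuationSubring ℂ,
    CharP (IsLocalRing.ResidueField V) p ∧ Infinite (IsLocalRing.ResidueField V) := by
  have hI : Ideal.span {(p : (⊥ : Subring ℂ))} ≠ ⊤ := by
    rw [Ne, Ideal.span_singleton_eq_top, isUnit_iff_exists_inv]
    rintro ⟨⟨x, hx⟩, h⟩
    obtain ⟨n, rfl⟩ := Subring.mem_bot.1 hx
    have h1 : (p : ℂ) * n = 1 := congrArg Subtype.val h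
    have h2 : (p : ℤ) * n = 1 := by exact_mod_cast h1
    exact hp.one_lt.ne' (by exact_mod_cast Int.eq_one_of_mul_eq_one_right (by positivity) h2)
  obtain ⟨V, -, hV⟩ := Ideal.image_subset_nonunits_valuationSubring _ hI
  have hpV : (p : ℂ) ∈ V.nonunits := hV ⟨p, Ideal.mem_span_singleton_self _, by simp⟩
  refine ⟨V, ?_, ?_⟩
  · have := Fact.mk hp
    refine (CharP.charP_iff_prime_eq_zero hp).2 ?_
    rw [← map_natCast (IsLocalRing.residue V), IsLocalRing.residue_eq_zero_iff,
      ← ValuationSubring.coe_mem_nonunits_iff]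
    simpa using hpV
  · by_contra hfin
    rw [not_infinite_iff_finite] at hfin
    let _ := Fintype.ofFinite (IsLocalRing.ResidueField V)
    set Q := Fintype.card (IsLocalRing.ResidueField V) with hQ
    have hQ1 : 1 < Q := Fintype.one_lt_card
    have hd : (X ^ Q + (1 - X) : ℂ[X]).degree = Q := by
      rw [degree_add_eq_left_of_degree_lt, degree_X_pow]
      rw [degree_X_pow]
      refine lt_of_le_of_lt (degree_sub_le _ _) (max_lt ?_ ?_)
      · rw [degree_one]; exact_mod_cast (by omega : 0 < Q)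
      · rw [degree_X]; exact_mod_cast hQ1
    obtain ⟨x, hx⟩ := IsAlgClosed.exists_root (X ^ Q + (1 - X) : ℂ[X])
      (by rw [hd]; exact_mod_cast (by omega : Q ≠ 0))
    have hx' : x ^ Q = x - 1 := by
      simp only [IsRoot.def, eval_add, eval_pow, eval_X, eval_sub, eval_one] at hx
      linear_combination hx
    have hxV : x ∈ V := by
      by_contra hn
      rw [← V.valuation_le_one_iff, not_le] at hn
      have h1 := V.valuation.map_sub x 1
      rw [← hx', map_pow, map_one, max_eq_left hn.le] at h1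
      have h2 := pow_lt_pow_right₀ hn hQ1
      rw [pow_one] at h2
      exact absurd h1 (not_le.2 h2)
    have h3 : (⟨x, hxV⟩ : V) ^ Q = ⟨x, hxV⟩ - 1 := Subtype.ext hx'
    have h4 := congrArg (IsLocalRing.residue V) h3
    rw [map_pow, FiniteField.pow_card, map_sub, map_one] at h4
    exact one_ne_zero (α := IsLocalRing.ResidueField V) (by linear_combination h4)

theorem exists_root (V : ValuationSubring ℂ) {q : ℕ} (hq : q ≠ 0) :
    ∃ ζ : V, IsPrimitiveRoot ζ q := by
  have h := Complex.isPrimitiveRoot_exp q hq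
  set x := Complex.exp (2 * Real.pi * Complex.I / q)
  have hx : x ∈ V := by
    rw [← V.valuation_le_one_iff]
    have h1 := congrArg V.valuation h.pow_eq_one
    rw [map_pow, map_one] at h1
    exact ((pow_eq_one_iff_of_nonneg zero_le hq).1 h1).le
  exact ⟨⟨x, hx⟩, IsPrimitiveRoot.of_map_of_injective (f := V.subtype) h Subtype.val_injective⟩

/-- A primitive solution of an underdetermined linear system over a valuation ring. -/
theorem exists_prim (V : ValuationSubring ℂ) {κ ρ : Type} [Fintype κ] [Fintype ρ]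
    (h : Fintype.card ρ < Fintype.card κ) (M : κ → ρ → V) :
    ∃ c : κ → V, (∃ i, c i = 1) ∧ ∀ r, ∑ i, c i * M i r = 0 := by
  have h1 : ¬LinearIndependent ℂ fun i r => (M i r : ℂ) := fun hl => by
    have := hl.fintype_card_le_finrank
    rw [Module.finrank_fintype_fun_eq_card] at this
    omega
  obtain ⟨g, hg, i, hi⟩ := Fintype.not_linearIndependent_iff.1 h1
  have : Nonempty κ := ⟨i⟩
  obtain ⟨i₀, hi₀⟩ := Finite.exists_max fun j => V.valuation (g j)
  have h0 : g i₀ ≠ 0 := fun e => hi (by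
    have := hi₀ i
    rwa [e, map_zero, le_zero_iff, map_eq_zero] at this)
  refine ⟨fun j => ⟨g j / g i₀, ?_⟩, ⟨i₀, Subtype.ext (div_self h0)⟩, fun r => ?_⟩
  · rw [← V.valuation_le_one_iff, map_div₀]
    exact div_le_one_of_le₀ (hi₀ j) zero_le
  · apply Subtype.val_injective
    have h2 := congrFun hg r
    simp only [Finset.sum_apply, Pi.smul_apply, smul_eq_mul, Pi.zero_apply] at h2
    have h3 := map_sum V.subtype (fun j => (⟨g j / g i₀, by
      rw [← V.valuation_le_one_iff, map_div₀]
      exact div_le_one_of_le₀ (hi₀ j) zero_le⟩ : V) * M j r) univ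
    refine h3.trans ?_
    simp only [map_mul, ValuationSubring.coe_subtype, div_mul_eq_mul_div]
    rw [← Finset.sum_div, h2, zero_div]
    rfl

theorem pow_dvd_aeval {R σ : Type} [CommRing R] [Fintype σ] (H : MvPolynomial σ R) (m : ℕ)
    (hH : ∀ γ : σ →₀ ℕ, ∑ j, γ j < m → H.coeff γ = 0) (ϖ : R[X]) (g : σ → R[X])
    (hg : ∀ s, ϖ ∣ g s) : ϖ ^ m ∣ MvPolynomial.aeval g H := by
  rw [H.as_sum, map_sum]
  refine Finset.dvd_sum fun γ hγ => ?_
  have h1 : m ≤ ∑ j, γ j := not_lt.1 fun h => MvPolynomial.mem_support_iff.1 hγ (hH γ h)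
  rw [MvPolynomial.aeval_monomial, Finsupp.prod_fintype _ _ fun _ => pow_zero _]
  refine ((pow_dvd_pow ϖ h1).trans ?_).mul_left _
  rw [← Finset.prod_pow_eq_pow_sum]
  exact Finset.prod_dvd_prod_of_dvd _ _ fun j _ => pow_dvd_pow_of_dvd (hg j) _

theorem prod_dvd {R ι : Type} [CommRing R] [IsDomain R] [Fintype ι] {τ : ι → R}
    (hτ : Function.Injective τ) (m : ι → ℕ) (G : R[X]) (h : ∀ t, (X - C (τ t)) ^ m t ∣ G) :
    ∏ t, (X - C (τ t)) ^ m t ∣ G := by
  let φ := algebraMap R (FractionRing R)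
  have hφ : Function.Injective φ := IsFractionRing.injective R _
  rw [← map_dvd_map φ hφ (monic_prod_of_monic _ _ fun t _ => (monic_X_sub_C _).pow _),
    Polynomial.map_prod]
  simp only [Polynomial.map_pow, Polynomial.map_sub, map_X, map_C]
  refine Finset.prod_dvd_of_coprime (fun s _ t _ hst => ?_) fun t _ => ?_
  · exact (pairwise_coprime_X_sub_C (hφ.comp hτ) hst).pow
  · simpa using Polynomial.map_dvd φ (h t)

end Pool.Agent.MP_5168f5_an.H41
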