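import Pool.Agent.MP_5168f5_an.H41.Jet
import Pool.Agent.MP_5168f5_an.H41.Val

/-! The sharp Kakeya maximal inequality modulo a prime power. -/

namespace Pool.Agent.MP_5168f5_an.H41

open Finset Polynomial Module

theorem pow_val {R : Type} [CommRing R] {q : ℕ} [NeZero q] {ζ : R} (h : ζ ^ q = 1)
    (a t d : ZMod q) : ζ ^ (a + t * d).val = ζ ^ a.val * (ζ ^ t.val) ^ d.val := by
  rw [ZMod.val_add, ← pow_eq_pow_mod _ h, pow_add, ZMod.val_mul, ← pow_eq_pow_mod _ h, pow_mul]

/-- The codimension is at most the number of vanishing conditions in characteristic zero. -/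
theorem codim_le {V : ValuationSubring ℂ} {k : Type} [Field k] (π : V →+* k)
    (hπ : Function.Surjective π) {q n L : ℕ} [NeZero q] {ζ : V} (hζ : IsPrimitiveRoot ζ q)
    (hπζ : π ζ = 1) (hz : (X + 1 : k[X]) ^ q = X ^ q + 1)
    (m : ZMod q × (Fin n → ZMod q) → ℕ) (a : (Fin n → ZMod q) → Fin n → ZMod q) :
    finrank k (low (Fin n) L → Tr k L) ≤ ∑ z, (low (Option (Fin n)) (m z)).card +
      fr (univ.inf fun d => CC k L d (∑ t, m (t, a d + t • d))) := by
  classical
  obtain ⟨κ, _, b, h1, h2⟩ := exists_coord (bW k L n)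
    (univ.inf fun d => CC k L d (∑ t, m (t, a d + t • d)))
  rw [h1]
  refine Nat.add_le_add_right ?_ _
  by_contra hlt
  let sm : ZMod q × (Fin n → ZMod q) → κ → MvPolynomial (Option (Fin n)) V := fun z i =>
    (MvPolynomial.X none + MvPolynomial.C (ζ ^ z.1.val - 1)) ^ ((b i).2 : ℕ) *
      ∏ j, (MvPolynomial.X (some j) + MvPolynomial.C (ζ ^ (z.2 j).val)) ^ (b i).1.1 j
  obtain ⟨c, ⟨i₀, hi₀⟩, hc⟩ := exists_prim V
    (ρ := Σ z : ZMod q × (Fin n → ZMod q), low (Option (Fin n)) (m z)) (κ := κ)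
    (by simpa [Fintype.card_sigma] using hlt) fun i r => (sm r.1 i).coeff r.2.1
  refine one_ne_zero (α := k) ?_
  rw [← map_one π, ← hi₀]
  refine h2 (fun i => π (c i)) ((Submodule.mem_finsetInf).2 fun d _ θ hθ => ?_) i₀
  choose β hβ using hθ
  let ρ : V[X] →+* Tr k L := (AdjoinRoot.mk _).comp (mapRingHom π)
  have hρ : Function.Surjective ρ :=
    AdjoinRoot.mk_surjective.comp (map_surjective π hπ)
  have hρX : ρ X = ww k L := by simp [ρ]
  have hρC : ∀ x : V, ρ (C x) = algebraMap k _ (π x) := fun x => by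
    simp only [ρ, RingHom.comp_apply, coe_mapRingHom, map_C]
    rfl
  have hz' : (ww k L + 1) ^ q - 1 = ww k L ^ q := by
    have := congrArg (AdjoinRoot.mk (X ^ L : k[X])) hz
    simp only [map_pow, map_add, map_one] at this
    rw [this, add_sub_cancel_right]
  choose β' hβ' using fun j => hρ (β j)
  let Θ : Fin n → V[X] := fun j =>
    C (ζ ^ (a d j).val) * (X + 1) ^ (d j).val + ((X + 1) ^ q - 1) * β' j
  have hΘ : ∀ j, ρ (Θ j) = θ j := fun j => by
    simp only [Θ, map_add, map_mul, map_pow, map_sub, map_one, hρX, hρC, hπζ, one_pow, one_mul,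
      hz', hβ']
    rw [← hβ j, add_sub_cancel]
  let G : V[X] := ∑ i, C (c i) * (X ^ ((b i).2 : ℕ) * ∏ j, Θ j ^ (b i).1.1 j)
  have hG : ev θ (∑ i, π (c i) • bW k L n (b i)) = ρ G := by
    rw [map_sum, map_sum]
    refine Finset.sum_congr rfl fun i _ => ?_
    rw [map_smul, ev_bW, Algebra.smul_def, map_mul, hρC, map_mul, map_pow, hρX, map_prod]
    simp only [map_pow, hΘ]
  have hτ : Function.Injective fun t : ZMod q => ζ ^ t.val - 1 := fun s t h =>
    ZMod.val_injective q (hζ.pow_inj (ZMod.val_lt s) (ZMod.val_lt t) (sub_left_injective h))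
  have h3 := prod_dvd hτ (fun t => m (t, a d + t • d)) G fun t => by
    have h4 := pow_dvd_aeval (∑ i, MvPolynomial.C (c i) * sm (t, a d + t • d) i)
      (m (t, a d + t • d)) (fun γ hγ => by
        rw [MvPolynomial.coeff_sum]
        simp only [MvPolynomial.coeff_C_mul]
        exact hc ⟨(t, a d + t • d), γ, mem_low.2 hγ⟩) (X - C (ζ ^ t.val - 1))
      (fun s => s.elim (X - C (ζ ^ t.val - 1)) fun j => Θ j - C (ζ ^ ((a d + t • d) j).val))
      (by
        rintro (_ | j)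
        · exact dvd_rfl
        · rw [dvd_iff_isRoot]
          have e1 : (ζ ^ t.val) ^ q = 1 := by rw [← pow_mul, mul_comm, pow_mul, hζ.pow_eq_one, one_pow]
          simp only [Option.elim, IsRoot.def, Θ, eval_sub, eval_add, eval_mul, eval_pow, eval_C,
            eval_X, eval_one, sub_add_cancel, e1, sub_self, zero_mul, add_zero, Pi.add_apply,
            Pi.smul_apply, smul_eq_mul, pow_val hζ.pow_eq_one])
    convert h4 using 1
    simp only [G, sm, map_sum, map_mul, map_pow, map_prod, map_add, MvPolynomial.aeval_X,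
      MvPolynomial.aeval_C, Option.elim, algebraMap_eq, sub_add_cancel]
  have h5 := map_dvd ρ h3
  rw [hG]
  simpa only [map_prod, map_pow, map_sub, hρX, hρC, hπζ, one_pow, map_one, sub_self, map_zero,
    sub_zero, Finset.prod_pow_eq_pow_sum] using h5

theorem core_nat {p e n : ℕ} (hp : p.Prime) [NeZero (p ^ e)]
    (m : ZMod (p ^ e) × (Fin n → ZMod (p ^ e)) → ℕ)
    (a : (Fin n → ZMod (p ^ e)) → Fin n → ZMod (p ^ e)) :
    ∑ d, ((∑ t, m (t, a d + t • d) : ℕ) : ℝ) ^ (n + 1) ≤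
      (pil (p ^ e) : ℝ) ^ n * ∑ z, ((m z : ℝ) + n) ^ (n + 1) := by
  classical
  have := Fact.mk hp
  have hq := NeZero.ne (p ^ e)
  obtain ⟨V, hc, hi⟩ := exists_val hp
  obtain ⟨ζ, hζ⟩ := exists_root V hq
  set k := IsLocalRing.ResidueField V
  have hπζ : IsLocalRing.residue V ζ = 1 := by
    have h1 := congrArg (IsLocalRing.residue V) hζ.pow_eq_one
    rw [map_pow, map_one] at h1
    have h2 := sub_pow_char_pow (n := e) (IsLocalRing.residue V ζ) 1
    rw [h1, one_pow, sub_self] at h2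
    exact sub_eq_zero.1 (pow_eq_zero_iff hq |>.1 h2)
  have hz : (X + 1 : k[X]) ^ p ^ e = X ^ p ^ e + 1 := by rw [add_pow_char_pow, one_pow]
  set ℓ : (Fin n → ZMod (p ^ e)) → ℕ := fun d => ∑ t, m (t, a d + t • d) with hℓ
  set L := univ.sup ℓ
  set κ : ℝ := (pil (p ^ e) : ℝ) / (p ^ e : ℕ) with hκ
  have hq0 : (0 : ℝ) < (p ^ e : ℕ) := by exact_mod_cast Nat.pos_of_ne_zero hq
  have hP : (0 : ℝ) < pil (p ^ e) := lt_of_lt_of_le hq0 (by exact_mod_cast le_pil_self _ hq)
  have hκ0 : 0 < κ := div_pos hP hq0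
  have h1 := codim_le (L := L) (IsLocalRing.residue V) IsLocalRing.residue_surjective hζ hπζ hz m a
  have h2 := average (fun d : Fin n → ZMod (p ^ e) => CC k L d) CC_anti ℓ (translate hz ℓ)
  have h3 := Finset.sum_le_sum fun d (_ : d ∈ univ) =>
    uniform (k := k) (n := n) (L := L) (s := ℓ d) (Finset.le_sup (mem_univ d)) hκ
  have h4 := Finset.sum_le_sum fun z (_ : z ∈ univ) =>
    card_low (Option (Fin n)) n (m z) (by simp)
  rw [Finset.sum_add_distrib, Finset.sum_const, card_univ, nsmul_eq_mul, ← Finset.sum_div] at h3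
  rw [← Finset.sum_div] at h4
  have hcard : (Fintype.card (Fin n → ZMod (p ^ e)) : ℝ) = ((p ^ e : ℕ) : ℝ) ^ n := by
    rw [Fintype.card_fun, ZMod.card, Fintype.card_fin, Nat.cast_pow]
  have h1' := (Nat.cast_le (α := ℝ)).2 h1
  have h2' := (Nat.cast_le (α := ℝ)).2 h2
  rw [Nat.cast_add, Nat.cast_sum] at h1'
  rw [Nat.cast_mul, Nat.cast_sum, hcard] at h2'
  rw [hcard] at h3
  have h5 := mul_le_mul_of_nonneg_left (h1'.trans (add_le_add_left h4 _))
    (pow_pos hq0 n).le
  have h6 : (∑ d, (ℓ d : ℝ) ^ (n + 1)) / (κ ^ n * (n + 1).factorial) ≤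
      ((p ^ e : ℕ) : ℝ) ^ n * ((∑ z, ((m z : ℝ) + n) ^ (n + 1)) / (n + 1).factorial) := by
    rw [mul_add] at h5
    linarith
  rw [div_le_iff₀ (by positivity)] at h6
  refine h6.trans (le_of_eq ?_)
  rw [hκ, div_pow]
  field_simp

/-- The maximal inequality over a finite ring with constant `B`. -/
def Mx (R : Type) [CommRing R] [Fintype R] [DecidableEq R] (n : ℕ) (B : ℝ) : Prop :=
  ∀ (f : R × (Fin n → R) → ℝ) (a : (Fin n → R) → Fin n → R), (∀ z, 0 ≤ f z) →
    ∑ d, (∑ t, f (t, a d + t • d)) ^ (n + 1) ≤ B * ∑ z, f z ^ (n + 1)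

theorem core {p e n : ℕ} (hp : p.Prime) [NeZero (p ^ e)] :
    Mx (ZMod (p ^ e)) n ((pil (p ^ e) : ℝ) ^ n) := by
  intro f a hf
  have hc : Continuous fun ε : ℝ => (pil (p ^ e) : ℝ) ^ n * ∑ z, (f z + ε * (n + 1)) ^ (n + 1) := by
    fun_prop
  have hl := (hc.tendsto 0).mono_left (nhdsWithin_le_nhds (s := Set.Ioi 0))
  simp only [zero_mul, add_zero] at hl
  refine ge_of_tendsto hl (eventually_nhdsWithin_of_forall fun ε hε => ?_)
  have hε0 : 0 < ε := hε
  have h := mul_le_mul_of_nonneg_left (core_nat hp (fun z => ⌈f z / ε⌉₊) a) (pow_pos hε0 (n + 1)).le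
  rw [mul_left_comm, Finset.mul_sum, Finset.mul_sum] at h
  refine le_trans (Finset.sum_le_sum fun d _ => ?_) (h.trans (mul_le_mul_of_nonneg_left
    (Finset.sum_le_sum fun z _ => ?_) (by positivity)))
  · rw [← mul_pow]
    refine pow_le_pow_left₀ (Finset.sum_nonneg fun _ _ => hf _) ?_ _
    rw [Nat.cast_sum, Finset.mul_sum]
    refine Finset.sum_le_sum fun t _ => ?_
    rw [mul_comm, ← div_le_iff₀ hε0]
    exact Nat.le_ceil _
  · rw [← mul_pow]
    refine pow_le_pow_left₀ (by positivity) ?_ _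
    have h1 := (Nat.ceil_lt_add_one (div_nonneg (hf z) hε0.le)).le
    have h2 := mul_le_mul_of_nonneg_left h1 hε0.le
    rw [mul_add, mul_div_cancel₀ _ hε0.ne'] at h2
    linarith

end Pool.Agent.MP_5168f5_an.H41
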