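import Mathlib

/-! Interpolation nodes in characteristic `p` and a Schwartz-Zippel lemma with precision. -/

namespace Pool.Agent.MP_5168f5_an.H41

open Finset Polynomial

/-- Pillai's function. -/
def pil (N : ℕ) : ℕ := ∑ t ∈ range N, Nat.gcd t N

/-- The cost of a pair of nodes. -/
def gam (q i j : ℕ) : ℕ := ∑ d ∈ q.divisors, if i ≡ j [MOD d] then d.totient else 0

theorem le_gam {q i j g : ℕ} (hq : q ≠ 0) (hg : g ∣ q) (h : i ≡ j [MOD g]) : g ≤ gam q i j := by
  unfold gam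
  calc g = ∑ d ∈ g.divisors, d.totient := (Nat.sum_totient g).symm
    _ = ∑ d ∈ g.divisors, if i ≡ j [MOD d] then d.totient else 0 :=
      Finset.sum_congr rfl fun d hd => by rw [if_pos (h.of_dvd (Nat.dvd_of_mem_divisors hd))]
    _ ≤ _ := Finset.sum_le_sum_of_subset (Nat.divisors_subset_of_dvd hq hg)

theorem le_pil {q : ℕ} (hq : q ≠ 0) : ∑ d ∈ q.divisors, d.totient * (q / d) ≤ pil q := by
  have h1 : ∀ t, ∑ d ∈ q.divisors, (if d ∣ t then d.totient else 0) = Nat.gcd t q := by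
    intro t
    rw [← Finset.sum_filter, ← Nat.sum_totient (Nat.gcd t q)]
    refine Finset.sum_congr ?_ fun _ _ => rfl
    ext d
    simp only [mem_filter, Nat.mem_divisors, Nat.dvd_gcd_iff, ne_eq, Nat.gcd_eq_zero_iff]
    tauto
  rw [pil, ← Finset.sum_congr rfl fun t _ => h1 t, Finset.sum_comm]
  refine Finset.sum_le_sum fun d hd => ?_
  have hd0 : 0 < d := Nat.pos_of_mem_divisors hd
  rw [← Finset.sum_filter, Finset.sum_const, smul_eq_mul, mul_comm]
  refine Nat.mul_le_mul_right _ ?_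
  rw [← Finset.card_range (q / d)]
  refine Finset.card_le_card_of_injOn (fun x => d * x) (fun x hx => ?_)
    fun x _ y _ h => Nat.eq_of_mul_eq_mul_left hd0 h
  simp only [coe_range, Set.mem_Iio, coe_filter, mem_range, Set.mem_ofPred_eq] at hx ⊢
  exact ⟨lt_of_lt_of_le (Nat.mul_lt_mul_of_pos_left hx hd0) (Nat.mul_div_le q d), dvd_mul_right _ _⟩

theorem cost {q m i : ℕ} (hq : q ≠ 0) (hi : i ≤ m) :
    q * ∑ j ∈ (range (m + 1)).erase i, gam q i j ≤ pil q * m := by
  unfold gam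
  rw [Finset.sum_comm, Finset.mul_sum]
  refine le_trans ?_ (Nat.mul_le_mul_right m (le_pil hq))
  rw [Finset.sum_mul]
  refine Finset.sum_le_sum fun d hd => ?_
  have hd0 : 0 < d := Nat.pos_of_mem_divisors hd
  rw [← Finset.sum_filter, Finset.sum_const, smul_eq_mul]
  have h1 : (((range (m + 1)).erase i).filter fun j => i ≡ j [MOD d]).card ≤ m / d := by
    rw [Finset.filter_erase, Finset.card_erase_of_mem
      (mem_filter.2 ⟨mem_range.2 (by omega), Nat.ModEq.refl i⟩)]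
    have h2 : ((range (m + 1)).filter fun j => i ≡ j [MOD d]).card ≤ (range (m / d + 1)).card := by
      refine Finset.card_le_card_of_injOn (fun x => x / d) (fun x hx => ?_) fun x hx y hy h => ?_
      · simp only [coe_filter, mem_range, Set.mem_ofPred_eq, coe_range, Set.mem_Iio] at hx ⊢
        exact Nat.lt_succ_of_le (Nat.div_le_div_right (by omega))
      · simp only [coe_filter, mem_range, Set.mem_ofPred_eq] at hx hy h
        have h3 : x % d = y % d := hx.2.symm.trans hy.2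
        rw [← Nat.div_add_mod x d, ← Nat.div_add_mod y d, h, h3]
    rw [Finset.card_range] at h2
    exact Nat.sub_le_of_le_add h2
  obtain ⟨c, hc⟩ := Nat.dvd_of_mem_divisors hd
  have h4 : q / d = c := by rw [hc, Nat.mul_div_cancel_left _ hd0]
  have h5 := Nat.mul_div_le m d
  rw [h4]
  calc q * (_ * d.totient) ≤ q * (m / d * d.totient) :=
        Nat.mul_le_mul_left _ (Nat.mul_le_mul_right _ h1)
    _ = d.totient * c * (d * (m / d)) := by rw [hc]; ring
    _ ≤ _ := Nat.mul_le_mul_left _ h5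

theorem le_pil_self (q : ℕ) (hq : q ≠ 0) : q ≤ pil q := by
  calc q = ∑ _t ∈ range q, 1 := by simp
    _ ≤ _ := Finset.sum_le_sum fun t _ => Nat.gcd_pos_of_pos_right t (Nat.pos_of_ne_zero hq)

/-- Lagrange's formula for the top coefficient, read modulo powers of a prime element. -/
theorem lag {R : Type} [CommRing R] [IsDomain R] {ϖ : R} (hϖ : Prime ϖ) (s : Finset ℕ) (θ : ℕ → R)
    (c : ℕ) (h : ∀ i ∈ s, ∃ n u, n ≤ c ∧ ¬ϖ ∣ u ∧ ∏ j ∈ s.erase i, (θ i - θ j) = ϖ ^ n * u)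
    (g : R[X]) (hg : g.degree < s.card) (r : ℕ) (hr : ∀ i ∈ s, ϖ ^ (r + c) ∣ g.eval (θ i)) :
    ϖ ^ r ∣ g.coeff (s.card - 1) := by
  choose! n u hn hu he using h
  choose! v hv using hr
  let φ := algebraMap R (FractionRing R)
  have hφ : Function.Injective φ := IsFractionRing.injective R _
  have hu0 : ∀ i ∈ s, u i ≠ 0 := fun i hi e => hu i hi (e ▸ dvd_zero _)
  have hinj : Set.InjOn (fun i => φ (θ i)) s := by
    intro i hi j hj e
    by_contra hne
    have h1 : ∏ j ∈ s.erase i, (θ i - θ j) = 0 :=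
      Finset.prod_eq_zero (mem_erase.2 ⟨Ne.symm hne, hj⟩) (sub_eq_zero.2 (hφ e))
    rw [he i hi] at h1
    exact mul_ne_zero (pow_ne_zero _ hϖ.ne_zero) (hu0 i hi) h1
  have h1 := Lagrange.coeff_eq_sum hinj (P := g.map φ) (lt_of_le_of_lt degree_map_le hg)
  have h2 : g.coeff (s.card - 1) * ∏ i ∈ s, u i =
      ∑ i ∈ s, ϖ ^ r * (ϖ ^ (c - n i) * v i * ∏ j ∈ s.erase i, u j) := by
    apply hφ
    rw [map_mul, ← coeff_map, h1, Finset.sum_mul, map_sum]
    refine Finset.sum_congr rfl fun i hi => ?_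
    have e1 : ∏ j ∈ s.erase i, (φ (θ i) - φ (θ j)) = φ (ϖ ^ n i * u i) := by
      rw [← he i hi, map_prod]
      simp only [map_sub]
    have e2 : φ (ϖ ^ n i * u i) ≠ 0 := fun e =>
      mul_ne_zero (pow_ne_zero _ hϖ.ne_zero) (hu0 i hi) (hφ (e.trans (map_zero φ).symm))
    rw [e1, eval_map, eval₂_at_apply, div_mul_eq_mul_div, div_eq_iff e2, ← map_mul, ← map_mul,
      hv i hi, ← Finset.mul_prod_erase s u hi]
    congr 1
    obtain ⟨x, hx⟩ := Nat.exists_eq_add_of_le (hn i hi)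
    rw [hx, Nat.add_sub_cancel_left]
    ring
  refine hϖ.pow_dvd_of_dvd_mul_right r (b := ∏ i ∈ s, u i) (fun hd => ?_) ?_
  · obtain ⟨i, hi, hd⟩ := (hϖ.dvd_finsetProd_iff _).1 hd
    exact hu i hi hd
  · rw [h2]
    exact Finset.dvd_sum fun i _ => dvd_mul_right _ _

section Nodes

variable {k : Type} [Field k] {p : ℕ} [Fact p.Prime] [CharP k p]

/-- The nodes. -/
noncomputable def node (q : ℕ) (β : ℕ → k) (i : ℕ) : k[X] := (X + 1) ^ (i % q) + C (β i) * X ^ q

theorem node_lt {e : ℕ} (β : ℕ → k) {i j : ℕ} (h : j % p ^ e < i % p ^ e) :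
    ∃ g, g ∣ p ^ e ∧ i ≡ j [MOD g] ∧ ¬X ^ (g + 1) ∣ node (p ^ e) β i - node (p ^ e) β j := by
  have hp : p.Prime := Fact.out
  have hq : 0 < p ^ e := pow_pos hp.pos e
  obtain ⟨t, ht⟩ := Nat.exists_eq_add_of_lt h
  obtain ⟨s, u, hu, hsu⟩ := Nat.exists_eq_pow_mul_and_not_dvd (Nat.succ_ne_zero t) p hp.ne_one
  have hu0 : 0 < u := Nat.pos_of_ne_zero fun e => hu (e ▸ dvd_zero p)
  have ht' : i % p ^ e = j % p ^ e + p ^ s * u := by rw [ht, ← hsu, Nat.add_assoc]
  have h1 : p ^ s < p ^ e := by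
    have h2 := Nat.mod_lt i hq
    have h3 : p ^ s ≤ p ^ s * u := Nat.le_mul_of_pos_right _ hu0
    rw [ht'] at h2
    exact lt_of_le_of_lt (h3.trans (Nat.le_add_left _ _)) h2
  have hdv : p ^ s ∣ p ^ e := pow_dvd_pow p ((Nat.pow_lt_pow_iff_right hp.one_lt).1 h1).le
  refine ⟨p ^ s, hdv, ?_, fun hd => hu ?_⟩
  · have a1 := ((Nat.mod_modEq i (p ^ e)).of_dvd hdv).symm
    have a2 := (Nat.mod_modEq j (p ^ e)).of_dvd hdv
    refine a1.trans (Nat.ModEq.trans ?_ a2)
    rw [ht']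
    exact Nat.add_mul_mod_self_left _ _ _
  · have e1 : node (p ^ e) β i - node (p ^ e) β j = (X + 1) ^ (j % p ^ e) *
        ((∑ x ∈ range u, (X ^ p ^ s + 1) ^ x) * X ^ p ^ s) + C (β i - β j) * X ^ p ^ e := by
      have e2 := geom_sum_mul (X ^ p ^ s + 1 : k[X]) u
      rw [add_sub_cancel_right] at e2
      rw [node, node, ht', pow_add, pow_mul, add_pow_char_pow, one_pow, e2, map_sub]
      ring
    rw [e1] at hd
    have h4 := (dvd_add_left ((pow_dvd_pow X h1).mul_left _)).1 hd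
    rw [← mul_assoc, pow_succ', mul_dvd_mul_iff_right (pow_ne_zero _ X_ne_zero), X_dvd_iff,
      coeff_zero_eq_eval_zero] at h4
    have hs0 : p ^ s ≠ 0 := (pow_pos hp.pos s).ne'
    simp only [eval_mul, eval_pow, eval_add, eval_X, eval_one, zero_add, one_pow, one_mul,
      eval_finsetSum, zero_pow hs0, sum_const, card_range, nsmul_eq_mul, mul_one] at h4
    exact (CharP.cast_eq_zero_iff k p u).1 h4

theorem node_sub {e : ℕ} {β : ℕ → k} (hβ : Function.Injective β) {i j : ℕ} (hij : i ≠ j) :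
    ∃ n u, n ≤ gam (p ^ e) i j ∧ ¬X ∣ u ∧ node (p ^ e) β i - node (p ^ e) β j = X ^ n * u := by
  have hp : p.Prime := Fact.out
  have hq : p ^ e ≠ 0 := (pow_pos hp.pos e).ne'
  have key : ∃ g, g ∣ p ^ e ∧ i ≡ j [MOD g] ∧
      ¬X ^ (g + 1) ∣ node (p ^ e) β i - node (p ^ e) β j := by
    rcases lt_trichotomy (i % p ^ e) (j % p ^ e) with h | h | h
    · obtain ⟨g, h1, h2, h3⟩ := node_lt β h
      exact ⟨g, h1, h2.symm, fun hd => h3 (dvd_sub_comm.1 hd)⟩
    · refine ⟨p ^ e, dvd_rfl, h, fun hd => hij (hβ ?_)⟩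
      have e1 : node (p ^ e) β i - node (p ^ e) β j = C (β i - β j) * X ^ p ^ e := by
        rw [node, node, h, map_sub]
        ring
      rw [e1, pow_succ', mul_dvd_mul_iff_right (pow_ne_zero _ X_ne_zero), X_dvd_iff,
        coeff_C_zero] at hd
      exact sub_eq_zero.1 hd
    · exact node_lt β h
  obtain ⟨g, h1, h2, h3⟩ := key
  have h0 : node (p ^ e) β i - node (p ^ e) β j ≠ 0 := fun e => h3 (e ▸ dvd_zero _)
  obtain ⟨n, u, hu, he⟩ := WfDvdMonoid.max_power_factor' h0 (prime_X (R := k)).not_isUnit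
  refine ⟨n, u, le_trans ?_ (le_gam hq h1 h2), hu, he⟩
  by_contra hn
  exact h3 (he ▸ (pow_dvd_pow X (by omega)).mul_right u)

theorem node_top {e : ℕ} {β : ℕ → k} (hβ : Function.Injective β) (m : ℕ) (g : k[X][X]) (r : ℕ)
    (hg : g.natDegree ≤ m)
    (hr : ∀ i, X ^ (r + ⌊(pil (p ^ e) : ℝ) / (p ^ e : ℕ) * m⌋₊) ∣ g.eval (node (p ^ e) β i)) :
    X ^ r ∣ g.coeff m := by
  have hp : p.Prime := Fact.out
  have hq : 0 < p ^ e := pow_pos hp.pos e
  have := lag prime_X (range (m + 1)) (node (p ^ e) β) _ (fun i hi => ?_) g ?_ r fun i _ => hr i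
  · rwa [card_range, Nat.add_sub_cancel] at this
  · have h1 : ∀ j, ∃ n u, j ≠ i → n ≤ gam (p ^ e) i j ∧ ¬X ∣ u ∧
        node (p ^ e) β i - node (p ^ e) β j = X ^ n * u := by
      intro j
      by_cases hj : j = i
      · exact ⟨0, 0, fun h => absurd hj h⟩
      · obtain ⟨n, u, h⟩ := node_sub (p := p) (e := e) hβ (Ne.symm hj)
        exact ⟨n, u, fun _ => h⟩
    choose n u h1 using h1
    refine ⟨∑ j ∈ (range (m + 1)).erase i, n j, ∏ j ∈ (range (m + 1)).erase i, u j, ?_,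
      fun hd => ?_, ?_⟩
    · refine Nat.le_floor ?_
      rw [div_mul_eq_mul_div, le_div_iff₀ (by exact_mod_cast hq), mul_comm]
      have h2 := cost hq.ne' (Nat.le_of_lt_succ (mem_range.1 hi))
      have h3 : ∑ j ∈ (range (m + 1)).erase i, n j ≤ ∑ j ∈ (range (m + 1)).erase i, gam (p ^ e) i j :=
        Finset.sum_le_sum fun j hj => (h1 j (ne_of_mem_erase hj)).1
      exact_mod_cast (Nat.mul_le_mul_left _ h3).trans h2
    · obtain ⟨j, hj, hd⟩ := (prime_X.dvd_finsetProd_iff _).1 hd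
      exact (h1 j (ne_of_mem_erase hj)).2.1 hd
    · rw [← Finset.prod_pow_eq_pow_sum, ← Finset.prod_mul_distrib]
      exact Finset.prod_congr rfl fun j hj => (h1 j (ne_of_mem_erase hj)).2.2
  · rw [card_range]
    exact lt_of_le_of_lt degree_le_natDegree (by exact_mod_cast Nat.lt_succ_of_le hg)

end Nodes

/-- Schwartz-Zippel with precision. -/
theorem sz {k : Type} [Field k] (θ : ℕ → k[X]) {κ : ℝ} (hκ : 0 ≤ κ)
    (hθ : ∀ (m : ℕ) (g : k[X][X]) (r : ℕ), g.natDegree ≤ m →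
      (∀ i, X ^ (r + ⌊κ * m⌋₊) ∣ g.eval (θ i)) → X ^ r ∣ g.coeff m) (n : ℕ) :
    ∀ (F : MvPolynomial (Fin n) k[X]) (r : ℕ),
      (∀ α ∈ F.support, ((F.coeff α).natDegree : ℝ) + κ * (∑ j, α j : ℕ) < r) →
      (∀ i : Fin n → ℕ, X ^ r ∣ MvPolynomial.eval (fun j => θ (i j)) F) → F = 0 := by
  induction n with
  | zero =>
    intro F r h1 h2
    by_contra hF
    have e := MvPolynomial.eq_C_of_isEmpty F
    have hc : F.coeff 0 ≠ 0 := fun h => hF (by rw [e, h, map_zero])
    have h3 := h1 0 (MvPolynomial.mem_support_iff.2 hc)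
    have h4 := h2 fun _ => 0
    rw [e, MvPolynomial.eval_C] at h4
    have h5 := natDegree_le_of_dvd h4 hc
    rw [natDegree_X_pow] at h5
    simp only [univ_eq_empty, sum_empty, Nat.cast_zero, mul_zero, add_zero, Nat.cast_lt] at h3
    omega
  | succ n ih =>
    intro F r h1 h2
    by_contra hF
    set G := MvPolynomial.finSuccEquiv k[X] n F with hG
    have hG0 : G ≠ 0 := fun h => hF ((MvPolynomial.finSuccEquiv k[X] n).injective
      (h.trans (map_zero _).symm))
    set m := G.natDegree with hm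
    have hl : G.coeff m ≠ 0 := leadingCoeff_ne_zero.2 hG0
    have h3 : ∀ α ∈ (G.coeff m).support,
        (((G.coeff m).coeff α).natDegree : ℝ) + κ * (∑ j, α j : ℕ) + κ * m < r := by
      intro α hα
      have e := MvPolynomial.finSuccEquiv_coeff_coeff α F m
      have h4 := h1 (α.cons m) (by
        rw [MvPolynomial.mem_support_iff, ← e]; exact MvPolynomial.mem_support_iff.1 hα)
      rw [← e, Fin.sum_univ_succ, Finsupp.cons_zero] at h4
      simp only [Finsupp.cons_succ] at h4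
      push_cast at h4 ⊢
      linarith
    have hfl : (⌊κ * m⌋₊ : ℝ) ≤ κ * m := Nat.floor_le (by positivity)
    have hr : ⌊κ * m⌋₊ ≤ r := by
      obtain ⟨α, hα⟩ := MvPolynomial.support_nonempty.2 hl
      have h4 := h3 α hα
      have h5 : (0 : ℝ) ≤ (((G.coeff m).coeff α).natDegree : ℝ) + κ * (∑ j, α j : ℕ) := by
        positivity
      exact_mod_cast (by linarith : (⌊κ * m⌋₊ : ℝ) ≤ r)
    refine hl (ih _ (r - ⌊κ * m⌋₊) (fun α hα => ?_) fun i => ?_)
    · rw [Nat.cast_sub hr]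
      linarith [h3 α hα]
    · rw [← coeff_map]
      refine hθ m _ _ natDegree_map_le fun i₀ => ?_
      rw [Nat.sub_add_cancel hr, ← MvPolynomial.eval_eq_eval_mv_eval']
      convert h2 (Fin.cons i₀ i) using 3
      funext j
      refine Fin.cases ?_ (fun j => ?_) j <;> simp

end Pool.Agent.MP_5168f5_an.H41
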