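import Pool.Agent.MP_5168f5_an.H41.Lin
import Pool.Agent.MP_5168f5_an.H41.Node

/-! Spaces of polynomials over `k[w] / w ^ L` vanishing to given precision along directions. -/

namespace Pool.Agent.MP_5168f5_an.H41

open Finset Polynomial Module

variable {k : Type} [Field k] {L n q : ℕ}

/-- The truncated polynomial ring. -/
abbrev Tr (k : Type) [Field k] (L : ℕ) : Type := AdjoinRoot (X ^ L : k[X])

/-- The class of `X`. -/
noncomputable abbrev ww (k : Type) [Field k] (L : ℕ) : Tr k L := AdjoinRoot.mk _ X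

/-- The basis of powers of `w`. -/
noncomputable def bT (k : Type) [Field k] (L : ℕ) : Basis (Fin L) k (Tr k L) :=
  (AdjoinRoot.powerBasis' (monic_X_pow L)).basis.reindex (finCongr (by simp))

theorem bT_apply (i : Fin L) : bT k L i = ww k L ^ (i : ℕ) := by
  rw [bT, Basis.reindex_apply, PowerBasis.basis_eq_pow]
  rfl

/-- The monomial basis. -/
noncomputable def bW (k : Type) [Field k] (L n : ℕ) :
    Basis (Σ _ : low (Fin n) L, Fin L) k (low (Fin n) L → Tr k L) := Pi.basis fun _ => bT k L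

instance : FiniteDimensional k (low (Fin n) L → Tr k L) := Module.Finite.of_basis (bW k L n)

/-- Evaluation. -/
noncomputable def ev (θ : Fin n → Tr k L) : (low (Fin n) L → Tr k L) →ₗ[k] Tr k L where
  toFun c := ∑ α, c α * ∏ j, θ j ^ α.1 j
  map_add' c c' := by simp only [Pi.add_apply, add_mul, Finset.sum_add_distrib]
  map_smul' r c := by simp only [Pi.smul_apply, smul_mul_assoc, RingHom.id_apply, Finset.smul_sum]

theorem ev_bW (θ : Fin n → Tr k L) (x : Σ _ : low (Fin n) L, Fin L) :
    ev θ (bW k L n x) = ww k L ^ (x.2 : ℕ) * ∏ j, θ j ^ x.1.1 j := by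
  rw [bW, Pi.basis_apply, bT_apply]
  show ∑ α : low (Fin n) L, _ * ∏ j, θ j ^ α.1 j = _
  rw [Finset.sum_eq_single x.1 (fun α _ h => by rw [Pi.single_eq_of_ne h, zero_mul])
    (fun h => absurd (mem_univ _) h), Pi.single_eq_same]

/-- Vanishing to precision `s` along the direction `d`. -/
def CC (k : Type) [Field k] (L : ℕ) (d : Fin n → ZMod q) (s : ℕ) :
    Submodule k (low (Fin n) L → Tr k L) where
  carrier := {c | ∀ θ : Fin n → Tr k L, (∀ j, ww k L ^ q ∣ θ j - (ww k L + 1) ^ (d j).val) →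
    ww k L ^ s ∣ ev θ c}
  add_mem' ha hb θ hθ := by rw [map_add]; exact dvd_add (ha θ hθ) (hb θ hθ)
  zero_mem' θ _ := by rw [map_zero]; exact dvd_zero _
  smul_mem' r c hc θ hθ := by rw [map_smul, Algebra.smul_def]; exact (hc θ hθ).mul_left _

theorem CC_anti (d : Fin n → ZMod q) : Antitone (CC k L d) :=
  fun _ _ h _ hc θ hθ => (pow_dvd_pow _ h).trans (hc θ hθ)

theorem translate [NeZero q] (hz : (X + 1 : k[X]) ^ q = X ^ q + 1) (ℓ : (Fin n → ZMod q) → ℕ)
    (v : Fin n → ZMod q) : fr (univ.inf fun d => CC k L d (ℓ d)) ≤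
      fr (univ.inf fun d => CC k L d (ℓ (d + v))) := by
  have hz' : (ww k L + 1) ^ q - 1 = ww k L ^ q := by
    have := congrArg (AdjoinRoot.mk (X ^ L : k[X])) hz
    simp only [map_pow, map_add, map_one] at this
    rw [this, add_sub_cancel_right]
  have hu : IsUnit (ww k L + 1) :=
    IsNilpotent.isUnit_add_one ⟨L, by rw [← map_pow, AdjoinRoot.mk_self]⟩
  let τ : (low (Fin n) L → Tr k L) →ₗ[k] (low (Fin n) L → Tr k L) :=
    { toFun := fun c α => c α * ∏ j, ((ww k L + 1) ^ (v j).val) ^ α.1 j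
      map_add' := fun c c' => funext fun α => add_mul _ _ _
      map_smul' := fun r c => funext fun α => smul_mul_assoc r (c α) _ }
  have hτ : Function.Injective τ := fun c c' h => funext fun α =>
    (IsUnit.prod_univ_iff.2 fun j => (hu.pow _).pow _).mul_right_cancel (congrFun h α)
  have h1 : fr (univ.inf fun d => CC k L d (ℓ d)) =
      fr ((univ.inf fun d => CC k L d (ℓ d)).map τ) :=
    (Submodule.equivMapOfInjective τ hτ _).finrank_eq
  rw [h1]
  refine fr_mono (Finset.le_inf fun d _ => ?_)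
  rintro _ ⟨c, hc, rfl⟩ θ hθ
  have h2 : ev θ (τ c) = ev (fun j => (ww k L + 1) ^ (v j).val * θ j) c := by
    refine Finset.sum_congr rfl fun α _ => ?_
    show c α * _ * _ = _
    rw [mul_assoc, ← Finset.prod_mul_distrib]
    simp only [mul_pow]
  rw [h2]
  refine (Finset.inf_le (f := fun d => CC k L d (ℓ d)) (mem_univ (d + v))) hc _ fun j => ?_
  have h3 : ww k L ^ q ∣ (ww k L + 1) ^ ((d j).val + (v j).val) - (ww k L + 1) ^ ((d + v) j).val := by
    rw [Pi.add_apply, ZMod.val_add, ← hz']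
    conv_rhs => rw [← Nat.mod_add_div ((d j).val + (v j).val) q, pow_add, pow_mul]
    rw [Nat.mod_add_div, ← mul_sub_one]
    exact (sub_one_dvd_pow_sub_one _ _).mul_left _
  have h4 := dvd_add ((hθ j).mul_left ((ww k L + 1) ^ (v j).val)) h3
  rwa [show (ww k L + 1) ^ (v j).val * (θ j - (ww k L + 1) ^ (d j).val) +
      ((ww k L + 1) ^ ((d j).val + (v j).val) - (ww k L + 1) ^ ((d + v) j).val) =
      (ww k L + 1) ^ (v j).val * θ j - (ww k L + 1) ^ ((d + v) j).val by ring] at h4

theorem count_fin {y : ℝ} (hy : y ≤ L) : max y 0 ≤ ∑ i : Fin L, if (i : ℝ) < y then (1 : ℝ) else 0 := by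
  rw [Fin.sum_univ_eq_sum_range (fun i => if (i : ℝ) < y then (1 : ℝ) else 0) L]
  calc max y 0 ≤ ⌈y⌉₊ := max_le (Nat.le_ceil y) (Nat.cast_nonneg _)
    _ = ∑ i ∈ range ⌈y⌉₊, if (i : ℝ) < y then (1 : ℝ) else 0 := by
      rw [Finset.sum_congr rfl fun i hi => if_pos (Nat.lt_ceil.1 (mem_range.1 hi))]
      simp
    _ ≤ _ := Finset.sum_le_sum_of_subset_of_nonneg (range_mono (Nat.ceil_le.2 hy))
      fun i _ _ => by split_ifs <;> norm_num

/-- The codimension for constant precision. -/
theorem uniform {p e : ℕ} [Fact p.Prime] [CharP k p] [Infinite k] [NeZero (p ^ e)] {s : ℕ}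
    (hs : s ≤ L) {κ : ℝ} (hκ : κ = (pil (p ^ e) : ℝ) / (p ^ e : ℕ)) :
    (fr (univ.inf fun d : Fin n → ZMod (p ^ e) => CC k L d s) : ℝ) +
      (s : ℝ) ^ (n + 1) / (κ ^ n * (n + 1).factorial) ≤ finrank k (low (Fin n) L → Tr k L) := by
  classical
  have hq := NeZero.ne (p ^ e)
  have hκ1 : 1 ≤ κ := by
    rw [hκ, le_div_iff₀ (by exact_mod_cast Nat.pos_of_ne_zero hq), one_mul]
    exact_mod_cast le_pil_self _ hq
  have hsL : (s : ℝ) ≤ L := by exact_mod_cast hs
  set I : Finset (Σ _ : low (Fin n) L, Fin L) :=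
    univ.filter fun x => (x.2 : ℝ) < s - κ * (∑ j, x.1.1 j : ℕ) with hI
  have h1 := add_card_le (bW k L n) (univ.inf fun d : Fin n → ZMod (p ^ e) => CC k L d s) I ?_
  · have h2 := volume (by linarith : 0 < κ) n L s (by nlinarith [Nat.cast_nonneg (α := ℝ) L])
    rw [max_eq_left (Nat.cast_nonneg s)] at h2
    have h3 := sum_low (Fin n) L fun r => max (s - κ * r) 0
    rw [Fintype.card_fin] at h3
    rw [← h3, ← Finset.sum_coe_sort] at h2
    have h4 : (I.card : ℝ) = ∑ α : low (Fin n) L, ∑ i : Fin L,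
        if (i : ℝ) < s - κ * (∑ j, α.1 j : ℕ) then (1 : ℝ) else 0 := by
      rw [hI, Finset.card_filter, Fintype.sum_sigma]
      push_cast
      rfl
    have h5 : ∑ α : low (Fin n) L, max (s - κ * (∑ j, α.1 j : ℕ)) 0 ≤ (I.card : ℝ) := by
      rw [h4]
      refine Finset.sum_le_sum fun α _ => count_fin ?_
      have : 0 ≤ κ * (∑ j, α.1 j : ℕ) := by positivity
      linarith
    have h6 : (fr (univ.inf fun d : Fin n → ZMod (p ^ e) => CC k L d s) : ℝ) + I.card ≤
      finrank k (low (Fin n) L → Tr k L) := by exact_mod_cast h1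
    linarith
  · intro c hc
    set β := Infinite.natEmbedding k
    set F : MvPolynomial (Fin n) k[X] :=
      ∑ i : I, MvPolynomial.monomial i.1.1.1 (C (c i) * X ^ (i.1.2 : ℕ)) with hF
    have hco : ∀ (α : Fin n →₀ ℕ) (D : ℕ), (F.coeff α).coeff D =
        ∑ i : I, if i.1.1.1 = α ∧ D = (i.1.2 : ℕ) then c i else 0 := by
      intro α D
      rw [hF, MvPolynomial.coeff_sum, finsetSum_coeff]
      refine Finset.sum_congr rfl fun i _ => ?_
      rw [MvPolynomial.coeff_monomial]
      by_cases h : i.1.1.1 = α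
      · simp only [h, if_true, true_and, coeff_C_mul_X_pow]
      · simp only [h, if_false, false_and, coeff_zero]
    have hF0 : F = 0 := by
      refine sz (node (p ^ e) β) (κ := κ) (by linarith)
        (fun m g r hg hr => node_top β.injective m g r hg (hκ ▸ hr)) n F s (fun α hα => ?_)
        fun ι => ?_
      · have h1 := leadingCoeff_ne_zero.2 (MvPolynomial.mem_support_iff.1 hα)
        rw [leadingCoeff, hco] at h1
        obtain ⟨i, -, hi⟩ := Finset.exists_ne_zero_of_sum_ne_zero h1
        have h2 := (ite_ne_right_iff.1 hi).1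
        have h3 := (mem_filter.1 i.2).2
        rw [h2.2, ← h2.1]
        linarith
      · have h1 := (Finset.inf_le (f := fun d : Fin n → ZMod (p ^ e) => CC k L d s)
          (mem_univ fun j => (ι j : ZMod (p ^ e)))) hc
          (fun j => AdjoinRoot.mk _ (node (p ^ e) β (ι j))) fun j => by
            rw [node, ZMod.val_natCast, map_add, map_pow, map_add, map_one, add_sub_cancel_left,
              map_mul, map_pow]
            exact dvd_mul_left _ _
        have h2 : ev (fun j => AdjoinRoot.mk _ (node (p ^ e) β (ι j))) (∑ i : I, c i • bW k L n i) =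
            AdjoinRoot.mk _ (MvPolynomial.eval (fun j => node (p ^ e) β (ι j)) F) := by
          rw [hF, map_sum, map_sum, map_sum]
          refine Finset.sum_congr rfl fun i _ => ?_
          rw [map_smul, ev_bW, MvPolynomial.eval_monomial,
            Finsupp.prod_fintype _ _ fun _ => pow_zero _, map_mul, map_mul, map_prod,
            Algebra.smul_def, mul_assoc]
          simp only [map_pow]
          rfl
        rw [h2] at h1
        obtain ⟨t, ht⟩ := h1
        obtain ⟨t, rfl⟩ := AdjoinRoot.mk_surjective t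
        rw [← map_pow, ← map_mul, AdjoinRoot.mk_eq_mk] at ht
        exact (dvd_sub_left (dvd_mul_right _ t)).1 ((pow_dvd_pow X hs).trans ht)
    intro i
    have h1 := hco i.1.1.1 i.1.2
    rw [hF0, MvPolynomial.coeff_zero, coeff_zero, Finset.sum_eq_single i
      (fun i' _ hne => if_neg fun h => hne ?_) (fun h => absurd (mem_univ _) h),
      if_pos ⟨rfl, rfl⟩] at h1
    · exact h1.symm
    · obtain ⟨⟨⟨α, hα⟩, j⟩, hi⟩ := i
      obtain ⟨⟨⟨α', hα'⟩, j'⟩, hi'⟩ := i'
      obtain ⟨rfl, h⟩ := h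
      obtain rfl : j = j' := Fin.ext h
      rfl

end Pool.Agent.MP_5168f5_an.H41
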