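import Mathlib

/-! Linear algebra and counting for the sharp Kakeya maximal inequality over `ZMod N`. -/

namespace Pool.Agent.MP_5168f5_an.H41

open Module Finset

section Lin

variable {k W : Type} [Field k] [AddCommGroup W] [Module k W]

/-- The dimension of a subspace. -/
noncomputable def fr (J : Submodule k W) : ℕ := finrank k J

theorem fr_mono [FiniteDimensional k W] {B B' : Submodule k W} (h : B ≤ B') : fr B ≤ fr B' :=
  Submodule.finrank_mono h

theorem step [FiniteDimensional k W] {B B' : Submodule k W} (h : B ≤ B') (C : Submodule k W) :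
    fr (B' ⊓ C) + fr B ≤
      fr B' + fr (B ⊓ C) := by
  have h1 : fr (B ⊔ B' ⊓ C) + fr (B ⊓ (B' ⊓ C)) = fr B + fr (B' ⊓ C) :=
    Submodule.finrank_sup_add_finrank_inf_eq B (B' ⊓ C)
  have h2 : fr (B ⊔ B' ⊓ C) ≤ fr B' :=
    fr_mono (sup_le h inf_le_left)
  have h3 : B ⊓ (B' ⊓ C) = B ⊓ C := by rw [← inf_assoc, inf_eq_left.2 h]
  rw [h3] at h1
  omega

/-- Marginal codimensions along a chain bound the codimension of every sub-intersection. -/
theorem weights [FiniteDimensional k W] {ι : Type} [DecidableEq ι] (A : Submodule k W)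
    (C : ι → Submodule k W) (P : Finset ι) :
    ∃ μ : ι → ℕ, fr (A ⊓ P.inf C) + ∑ d ∈ P, μ d = fr A ∧
      ∀ A' : Submodule k W, A ≤ A' → ∀ D ⊆ P,
        fr (A' ⊓ D.inf C) + ∑ d ∈ D, μ d ≤ fr A' := by
  induction P using Finset.induction_on with
  | empty =>
    refine ⟨fun _ => 0, by simp, fun A' _ D hD => ?_⟩
    rw [Finset.subset_empty.1 hD]
    simp
  | insert e P he ih =>
    obtain ⟨μ, h1, h2⟩ := ih
    have hle : fr (A ⊓ P.inf C ⊓ C e) ≤
        fr (A ⊓ P.inf C) := fr_mono inf_le_left
    have hs : ∀ (x : ℕ) (D : Finset ι), D ⊆ P →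
        ∑ d ∈ D, Function.update μ e x d = ∑ d ∈ D, μ d := fun x D hD =>
      Finset.sum_congr rfl fun d hd => Function.update_of_ne (fun h : d = e => he (h ▸ hD hd)) _ _
    have hi : ∀ (B : Submodule k W) (D : Finset ι), B ⊓ (insert e D).inf C = B ⊓ D.inf C ⊓ C e :=
      fun B D => by rw [Finset.inf_insert, inf_assoc, inf_comm (C e)]
    refine ⟨Function.update μ e (fr (A ⊓ P.inf C) -
      fr (A ⊓ P.inf C ⊓ C e)), ?_, fun A' hA D hD => ?_⟩
    · rw [Finset.sum_insert he, Function.update_self, hs _ P subset_rfl, hi]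
      omega
    · by_cases heD : e ∈ D
      · have hD' : D.erase e ⊆ P := fun d hd =>
          (Finset.mem_insert.1 (hD (Finset.mem_of_mem_erase hd))).resolve_left
            (Finset.ne_of_mem_erase hd)
        have h3 := h2 A' hA _ hD'
        have h4 := step (B := A ⊓ P.inf C) (B' := A' ⊓ (D.erase e).inf C)
          (inf_le_inf hA (Finset.inf_mono hD')) (C e)
        rw [← Finset.insert_erase heD, Finset.sum_insert (Finset.notMem_erase e D),
          Function.update_self, hs _ _ hD', hi]
        omega
      · have hD' : D ⊆ P := fun d hd =>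
          (Finset.mem_insert.1 (hD hd)).resolve_left fun h => heD (h ▸ hd)
        rw [hs _ _ hD']
        exact h2 A' hA D hD'

/-- Averaging over translates. -/
theorem average [FiniteDimensional k W] {G : Type} [AddCommGroup G] [Fintype G]
    (C : G → ℕ → Submodule k W) (hanti : ∀ d, Antitone (C d)) (ℓ : G → ℕ)
    (htr : ∀ v, fr (univ.inf fun d => C d (ℓ d)) ≤
      fr (univ.inf fun d => C d (ℓ (d + v)))) :
    Fintype.card G * fr (univ.inf fun d => C d (ℓ d)) ≤
      ∑ e, fr (univ.inf fun d => C d (ℓ e)) := by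
  classical
  have key : ∀ s : ℕ, ∑ v, fr (univ.inf fun d => C d (min (ℓ (d + v)) s)) ≤
      ∑ e, fr (univ.inf fun d => C d (min (ℓ e) s)) := by
    intro s
    induction s with
    | zero => simp
    | succ s ih =>
      obtain ⟨μ, h1, h2⟩ := weights (univ.inf fun d => C d s) (fun d => C d (s + 1)) univ
      have e1 : ((univ.inf fun d => C d s) ⊓ univ.inf fun d => C d (s + 1) : Submodule k W) =
          univ.inf fun d => C d (s + 1) :=
        inf_eq_right.2 (Finset.inf_mono_fun fun d _ => hanti d (Nat.le_succ s))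
      rw [e1] at h1
      have h3 : ∀ v, fr (univ.inf fun d => C d (min (ℓ (d + v)) (s + 1))) +
          ∑ d, (if s + 1 ≤ ℓ (d + v) then μ d else 0) ≤
          fr (univ.inf fun d => C d (min (ℓ (d + v)) s)) := by
        intro v
        have h4 := h2 (univ.inf fun d => C d (min (ℓ (d + v)) s))
          (Finset.inf_mono_fun fun d _ => hanti d (min_le_right _ _))
          (univ.filter fun d => s + 1 ≤ ℓ (d + v)) (Finset.filter_subset _ _)
        rw [Finset.sum_filter] at h4
        refine le_trans (Nat.add_le_add_right (fr_mono (le_inf ?_ ?_)) _) h4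
        · exact Finset.inf_mono_fun fun d _ => hanti d (min_le_min_left _ (Nat.le_succ s))
        · refine Finset.le_inf fun d hd => (Finset.inf_le (Finset.mem_univ d)).trans ?_
          rw [min_eq_right (Finset.mem_filter.1 hd).2]
      have h5 : ∑ v, ∑ d, (if s + 1 ≤ ℓ (d + v) then μ d else 0) =
          ∑ e, if s + 1 ≤ ℓ e then ∑ d, μ d else 0 := by
        rw [Finset.sum_comm]
        have : ∀ d, ∑ v, (if s + 1 ≤ ℓ (d + v) then μ d else 0) =
            ∑ e, if s + 1 ≤ ℓ e then μ d else 0 := fun d =>
          Equiv.sum_comp (Equiv.addLeft d) fun e => if s + 1 ≤ ℓ e then μ d else 0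
        rw [Finset.sum_congr rfl fun d _ => this d, Finset.sum_comm]
        refine Finset.sum_congr rfl fun e _ => ?_
        split_ifs <;> simp
      have h6 : ∀ e, fr (univ.inf fun d => C d (min (ℓ e) s)) =
          fr (univ.inf fun d => C d (min (ℓ e) (s + 1))) +
            if s + 1 ≤ ℓ e then ∑ d, μ d else 0 := by
        intro e
        split_ifs with h
        · rw [min_eq_right h, min_eq_right (Nat.le_of_succ_le h), h1]
        · rw [min_eq_left (by omega : ℓ e ≤ s), min_eq_left (by omega : ℓ e ≤ s + 1), add_zero]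
      have h7 := Finset.sum_le_sum fun v (_ : v ∈ univ) => h3 v
      rw [Finset.sum_add_distrib, h5] at h7
      rw [Finset.sum_congr rfl fun e _ => h6 e, Finset.sum_add_distrib] at ih
      omega
  have h := key (univ.sup ℓ)
  have hm : ∀ e, min (ℓ e) (univ.sup ℓ) = ℓ e := fun e =>
    min_eq_left (Finset.le_sup (Finset.mem_univ e))
  simp only [hm] at h
  refine le_trans ?_ h
  rw [← Finset.card_univ, ← smul_eq_mul, ← Finset.sum_const]
  exact Finset.sum_le_sum fun v _ => htr v

/-- Basis vectors that span a complement of a subspace. -/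
theorem exists_coord {ι : Type} [Fintype ι] (b : Basis ι k W) (J : Submodule k W) :
    ∃ (κ : Type) (_ : Fintype κ) (a : κ → ι), finrank k W = Fintype.card κ + fr J ∧
      ∀ c : κ → k, ∑ i, c i • b (a i) ∈ J → ∀ i, c i = 0 := by
  have := Module.Finite.of_basis b
  obtain ⟨κ, a, ha, hs, hl⟩ := exists_linearIndependent' k fun i => J.mkQ (b i)
  have := Finite.of_injective a ha
  let _ := Fintype.ofFinite κ
  refine ⟨κ, inferInstance, a, ?_, fun c hc => Fintype.linearIndependent_iff.1 hl c ?_⟩
  · have h1 : Submodule.span k (Set.range fun i => J.mkQ (b i)) = ⊤ := by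
      rw [show (fun i => J.mkQ (b i)) = J.mkQ ∘ b from rfl, Set.range_comp, ← Submodule.map_span,
        b.span_eq, Submodule.map_top, Submodule.range_mkQ]
    rw [← finrank_span_eq_card hl, hs, h1, finrank_top, fr, Submodule.finrank_quotient_add_finrank]
  · have := (Submodule.Quotient.mk_eq_zero J).2 hc
    rw [← Submodule.mkQ_apply, map_sum] at this
    simpa using this

theorem add_card_le {ι : Type} [Fintype ι] (b : Basis ι k W) (J : Submodule k W) (I : Finset ι)
    (h : ∀ c : I → k, ∑ i, c i • b i ∈ J → ∀ i, c i = 0) : fr J + I.card ≤ finrank k W := by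
  have := Module.Finite.of_basis b
  have hl : LinearIndependent k fun i : I => J.mkQ (b i) := by
    refine Fintype.linearIndependent_iff.2 fun c hc => h c ?_
    rw [← Submodule.Quotient.mk_eq_zero, ← Submodule.mkQ_apply, map_sum]
    simpa using hc
  have h1 := hl.fintype_card_le_finrank
  have h2 := Submodule.finrank_quotient_add_finrank J
  rw [Fintype.card_coe] at h1
  unfold fr
  omega

end Lin

/-- The exponents of degree less than `m`. -/
noncomputable def low (σ : Type) [Fintype σ] [DecidableEq σ] (m : ℕ) : Finset (σ →₀ ℕ) :=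
  (range m).biUnion fun r => finsuppAntidiag univ r

theorem mem_low {σ : Type} [Fintype σ] [DecidableEq σ] {m : ℕ} {α : σ →₀ ℕ} :
    α ∈ low σ m ↔ ∑ j, α j < m := by
  simp [low, mem_finsuppAntidiag]

theorem sum_low (σ : Type) [Fintype σ] [DecidableEq σ] (m : ℕ) (g : ℕ → ℝ) :
    ∑ α ∈ low σ m, g (∑ j, α j) = ∑ r ∈ range m, ((Fintype.card σ).multichoose r : ℝ) * g r := by
  rw [low, Finset.sum_biUnion]
  · refine Finset.sum_congr rfl fun r _ => ?_
    rw [Finset.sum_congr rfl fun α hα => by rw [(mem_finsuppAntidiag.1 hα).1], Finset.sum_const,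
      card_finsuppAntidiag_nat_eq_multichoose, nsmul_eq_mul, Finset.card_univ]
  · intro r _ r' _ hne
    refine Finset.disjoint_left.2 fun α h1 h2 => hne ?_
    rw [← (mem_finsuppAntidiag.1 h1).1, (mem_finsuppAntidiag.1 h2).1]

theorem card_low (σ : Type) [Fintype σ] [DecidableEq σ] (n m : ℕ) (h : Fintype.card σ = n + 1) :
    ((low σ m).card : ℝ) ≤ ((m : ℝ) + n) ^ (n + 1) / (n + 1).factorial := by
  have h1 := sum_low σ m fun _ => 1
  simp only [Finset.sum_const, nsmul_eq_mul, mul_one] at h1
  rw [h1, h]
  rcases m with _ | m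
  · simp only [range_zero, sum_empty]
    positivity
  · rw [← Nat.cast_sum, Nat.sum_range_multichoose]
    refine (Nat.choose_le_pow_div _ _).trans (le_of_eq ?_)
    push_cast
    ring

/-- Lattice points in a simplex are at least as many as its volume. -/
theorem volume {κ : ℝ} (hκ : 0 < κ) (n : ℕ) : ∀ (R : ℕ) (s : ℝ), s ≤ κ * R →
    max s 0 ^ (n + 1) / (κ ^ n * (n + 1).factorial) ≤
      ∑ r ∈ range R, (n.multichoose r : ℝ) * max (s - κ * r) 0 := by
  induction n with
  | zero =>
    intro R s hs
    rcases R with _ | R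
    · simp only [Nat.cast_zero, mul_zero] at hs
      simp [max_eq_right hs]
    · simp [Finset.sum_range_succ']
  | succ n ih =>
    intro R
    induction R with
    | zero =>
      intro s hs
      simp only [Nat.cast_zero, mul_zero] at hs
      simp [max_eq_right hs]
    | succ R ihR =>
      intro s hs
      have h1 := ih (R + 1) s hs
      have h2 := ihR (s - κ) (by push_cast at hs; linarith)
      rw [Finset.sum_range_succ'] at h1 ⊢
      have e : ∑ r ∈ range R, ((n + 1).multichoose (r + 1) : ℝ) * max (s - κ * (r + 1 : ℕ)) 0 =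
          ∑ r ∈ range R, (n.multichoose (r + 1) : ℝ) * max (s - κ * (r + 1 : ℕ)) 0 +
          ∑ r ∈ range R, ((n + 1).multichoose r : ℝ) * max (s - κ - κ * r) 0 := by
        rw [← Finset.sum_add_distrib]
        refine Finset.sum_congr rfl fun r _ => ?_
        rw [Nat.multichoose_succ_succ, show s - κ - κ * r = s - κ * (r + 1 : ℕ) by push_cast; ring]
        push_cast
        ring
      rw [e]
      simp only [Nat.multichoose_zero_right] at h1 ⊢
      set y := max s 0 with hy
      set y' := max (s - κ) 0 with hy'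
      have a0 : 0 ≤ y' := le_max_right _ _
      have a1 : y' ≤ y := max_le_max (by linarith) le_rfl
      have a2 : y - y' ≤ κ := by
        have := le_max_left (s - κ) 0
        rcases le_total s 0 with h | h
        · rw [hy, max_eq_right h]; linarith
        · rw [hy, max_eq_left h]; linarith
      have a3 := abs_pow_sub_pow_le y y' (n + 1 + 1)
      rw [abs_of_nonneg (sub_nonneg.2 a1), abs_of_nonneg a0, abs_of_nonneg (a0.trans a1),
        max_eq_left a1, Nat.add_sub_cancel] at a3
      have a4 : y ^ (n + 1 + 1) ≤ y' ^ (n + 1 + 1) + κ * (n + 1 + 1 : ℕ) * y ^ (n + 1) := by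
        have a5 : (y - y') * (n + 1 + 1 : ℕ) * y ^ (n + 1) ≤ κ * (n + 1 + 1 : ℕ) * y ^ (n + 1) := by
          have := a0.trans a1
          gcongr
        linarith [le_abs_self (y ^ (n + 1 + 1) - y' ^ (n + 1 + 1))]
      have a6 : y ^ (n + 1 + 1) / (κ ^ (n + 1) * (n + 1 + 1).factorial) ≤
          y ^ (n + 1) / (κ ^ n * (n + 1).factorial) +
            y' ^ (n + 1 + 1) / (κ ^ (n + 1) * (n + 1 + 1).factorial) := by
        refine (div_le_div_of_nonneg_right a4 (by positivity)).trans (le_of_eq ?_)
        rw [Nat.factorial_succ (n + 1)]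
        push_cast
        field_simp
        ring
      linarith

end Pool.Agent.MP_5168f5_an.H41
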