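import Pool.Agent.MP_5168f5_an.H41.Core

/-! The sharp Kakeya maximal inequality over `ZMod N`: products, and the bush example. -/

namespace Pool.Agent.MP_5168f5_an.H41

open Finset

variable {R A B : Type} [CommRing R] [Fintype R] [DecidableEq R] [CommRing A] [Fintype A]
  [DecidableEq A] [CommRing B] [Fintype B] [DecidableEq B] {n : ℕ}

theorem Mx.prod {C₁ C₂ : ℝ} (h₁ : Mx A n C₁) (h₂ : Mx B n C₂) (hC : 0 ≤ C₂) :
    Mx (A × B) n (C₁ * C₂) := by
  intro f a hf
  let E : (Fin n → A) × (Fin n → B) ≃ (Fin n → A × B) :=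
    ⟨fun x j => (x.1 j, x.2 j), fun z => (fun j => (z j).1, fun j => (z j).2), fun _ => rfl,
      fun _ => rfl⟩
  let F : B × (Fin n → B) → A × (Fin n → A) → ℝ := fun y x => f ((x.1, y.1), E (x.2, y.2))
  choose x hx using fun (d : Fin n → A) (y : B × (Fin n → B)) =>
    Finite.exists_max fun u : Fin n → A => ∑ t, F y (t, u + t • d)
  have e1 : ∑ z, f z ^ (n + 1) = ∑ y, ∑ x, F y x ^ (n + 1) := by
    rw [← Fintype.sum_prod_type']
    refine (Fintype.sum_equiv ⟨fun w => ((w.2.1, w.1.1), E (w.2.2, w.1.2)),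
      fun z => ((z.1.2, (E.symm z.2).2), (z.1.1, (E.symm z.2).1)), fun _ => rfl, fun _ => rfl⟩
      _ _ fun _ => rfl).symm
  rw [← Equiv.sum_comp E, Fintype.sum_prod_type, e1]
  calc _ ≤ ∑ d : Fin n → A, ∑ d' : Fin n → B, (∑ t' : B, ∑ t, F (t', (E.symm (a (E (d, d')))).2 +
        t' • d') (t, x d (t', (E.symm (a (E (d, d')))).2 + t' • d') + t • d)) ^ (n + 1) := by
        refine Finset.sum_le_sum fun d _ => Finset.sum_le_sum fun d' _ => ?_
        refine pow_le_pow_left₀ (Finset.sum_nonneg fun _ _ => hf _) ?_ _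
        rw [Fintype.sum_prod_type, Finset.sum_comm]
        exact Finset.sum_le_sum fun t' _ =>
          hx d (t', (E.symm (a (E (d, d')))).2 + t' • d') (E.symm (a (E (d, d')))).1
    _ ≤ ∑ d : Fin n → A, C₂ * ∑ y, (∑ t, F y (t, x d y + t • d)) ^ (n + 1) :=
        Finset.sum_le_sum fun d _ => h₂ (fun y => ∑ t, F y (t, x d y + t • d))
          (fun d' => (E.symm (a (E (d, d')))).2) fun _ => Finset.sum_nonneg fun _ _ => hf _
    _ ≤ _ := by
        rw [← Finset.mul_sum, Finset.sum_comm, mul_comm C₁, mul_assoc, Finset.mul_sum _ _ C₁]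
        exact mul_le_mul_of_nonneg_left (Finset.sum_le_sum fun y _ =>
          h₁ (F y) (fun d => x d y) fun _ => hf _) hC

theorem Mx.of_equiv (φ : R ≃+* A) {C : ℝ} (h : Mx A n C) : Mx R n C := by
  intro f a hf
  let E : (Fin n → A) ≃ (Fin n → R) := Equiv.piCongrRight fun _ => φ.symm.toEquiv
  have h1 := h (fun z => f (φ.symm z.1, E z.2)) (fun d => E.symm (a (E d))) fun _ => hf _
  rw [← Equiv.sum_comp E, ← Equiv.sum_comp (φ.symm.toEquiv.prodCongr E)]
  refine le_trans (le_of_eq (Finset.sum_congr rfl fun d _ => ?_)) h1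
  rw [← Equiv.sum_comp φ.symm.toEquiv]
  congr 1
  refine Finset.sum_congr rfl fun t _ => ?_
  congr 2
  funext j
  simp [E]

/-- The size of the annihilator. -/
def ann (t : R) : ℕ := (univ.filter fun x => t * x = 0).card

theorem ann_equiv (φ : R ≃+* A × B) (t : R) : ann t = ann (φ t).1 * ann (φ t).2 := by
  rw [ann, ann, ann, ← Finset.card_product]
  refine Finset.card_equiv φ.toEquiv fun x => ?_
  simp only [mem_filter, mem_univ, true_and, mem_product]
  rw [← φ.map_eq_zero_iff, map_mul, Prod.ext_iff]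
  rfl

theorem sum_ann (φ : R ≃+* A × B) : ∑ t : R, ann t = (∑ t : A, ann t) * ∑ t : B, ann t := by
  rw [Finset.sum_mul_sum, ← Fintype.sum_prod_type']
  exact Fintype.sum_equiv φ.toEquiv _ _ (ann_equiv φ)

theorem pil_eq (N : ℕ) [NeZero N] : pil N = ∑ t : ZMod N, ann t := by
  have h1 : ∀ t : ZMod N, ann t = Nat.gcd t.val N := by
    intro t
    have h := IsAddCyclic.card_nsmulAddMonoidHom_ker (G := ZMod N) t.val
    rw [Nat.card_zmod, Nat.gcd_comm] at h
    rw [← h, ann, Nat.card_eq_fintype_card, Fintype.card_subtype]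
    congr 1
    ext x
    simp [AddMonoidHom.mem_ker]
  rw [pil, Finset.sum_congr rfl fun t _ => h1 t]
  refine (Finset.sum_bij (fun (t : ZMod N) _ => t.val) (fun t _ => mem_range.2 (ZMod.val_lt t))
    (fun s _ t _ h => ZMod.val_injective N h) (fun b hb => ⟨b, mem_univ _, ?_⟩) fun _ _ => rfl).symm
  exact ZMod.val_cast_of_lt (mem_range.1 hb)

theorem upper (n N : ℕ) : ∀ [NeZero N], Mx (ZMod N) n ((pil N : ℝ) ^ n) := by
  induction N using Nat.recOnPrimeCoprime with
  | zero => intro h; exact absurd rfl h.ne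
  | prime_pow p e hp => intro _; exact core hp
  | coprime a b ha hb hab iha ihb =>
    intro _
    have : NeZero a := ⟨by omega⟩
    have : NeZero b := ⟨by omega⟩
    have h := (iha.prod ihb (by positivity)).of_equiv (ZMod.chineseRemainder hab)
    rwa [pil_eq, sum_ann (ZMod.chineseRemainder hab), ← pil_eq, ← pil_eq, Nat.cast_mul, mul_pow]

/-- The bush example. -/
theorem lower {C : ℝ} (h : Mx R n C) : ((∑ t : R, ann t : ℕ) : ℝ) ^ n ≤ C := by
  set P : ℝ := ((∑ t : R, ann t : ℕ) : ℝ) with hP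
  have hP0 : 0 < P := by
    rw [hP, Nat.cast_pos]
    exact Finset.sum_pos (fun t _ => Finset.card_pos.2 ⟨0, by simp⟩) univ_nonempty
  have hc : (0 : ℝ) < Fintype.card (Fin n → R) := by exact_mod_cast Fintype.card_pos
  have h1 := h (fun z => if z.2 ∈ univ.image fun d => z.1 • d then ann z.1 else 0) (fun _ => 0)
    fun z => by split_ifs <;> positivity
  simp only [zero_add, mem_image, mem_univ, true_and, exists_apply_eq_apply, if_true,
    Finset.sum_const, card_univ, nsmul_eq_mul] at h1
  rw [← Nat.cast_sum, ← hP] at h1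
  have h2 : ∑ z : R × (Fin n → R), (if ∃ d, z.1 • d = z.2 then (ann z.1 : ℝ) else 0) ^ (n + 1) ≤
      Fintype.card (Fin n → R) * P := by
    rw [Fintype.sum_prod_type, hP, Nat.cast_sum, Finset.mul_sum]
    refine Finset.sum_le_sum fun t _ => ?_
    have h3 := Finset.mul_card_image_le_card (f := fun d : Fin n → R => t • d) univ (ann t ^ n) ?_
    · have e : ∀ z : Fin n → R, (if ∃ d, t • d = z then (ann t : ℝ) else 0) ^ (n + 1) =
          if z ∈ univ.image fun d => t • d then (ann t : ℝ) ^ (n + 1) else 0 := fun z => by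
        simp only [mem_image, mem_univ, true_and]
        split_ifs <;> simp
      rw [Finset.sum_congr rfl fun z _ => e z, Finset.sum_ite_mem, univ_inter, Finset.sum_const,
        nsmul_eq_mul, pow_succ, ← mul_assoc]
      refine mul_le_mul_of_nonneg_right ?_ (Nat.cast_nonneg _)
      rw [mul_comm]
      exact_mod_cast h3
    · intro z hz
      obtain ⟨d, -, rfl⟩ := mem_image.1 hz
      have h4 : ann t ^ n = (Fintype.piFinset fun _ : Fin n =>
          univ.filter fun x : R => t * x = 0).card := by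
        rw [Fintype.card_piFinset_const, ann]
      rw [h4]
      refine Finset.card_le_card_of_injOn (fun y => d + y) (fun y hy => ?_)
        fun y _ y' _ h => add_left_cancel h
      simp only [Fintype.coe_piFinset, Set.mem_pi, Set.mem_univ, coe_filter, mem_univ, true_and,
        Set.mem_ofPred_eq, forall_const] at hy ⊢
      funext j
      simp [mul_add, hy j]
  have h0 : (0 : ℝ) ≤ ∑ z : R × (Fin n → R),
      (if ∃ d, z.1 • d = z.2 then (ann z.1 : ℝ) else 0) ^ (n + 1) :=
    Finset.sum_nonneg fun z _ => pow_nonneg (by split_ifs <;> positivity) _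
  have hC : 0 ≤ C := by
    by_contra hn
    have := mul_nonpos_of_nonpos_of_nonneg (not_le.1 hn).le h0
    have : 0 < (Fintype.card (Fin n → R) : ℝ) * P ^ (n + 1) := by positivity
    linarith
  have h5 := h1.trans (mul_le_mul_of_nonneg_left h2 hC)
  rw [pow_succ, show C * ((Fintype.card (Fin n → R) : ℝ) * P) =
    Fintype.card (Fin n → R) * (C * P) by ring] at h5
  exact le_of_mul_le_mul_right (le_of_mul_le_mul_left h5 hc) hP0

end Pool.Agent.MP_5168f5_an.H41
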